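import Pool.Agent.Q264.HM.Stm

/-!
# Checking all members of a computable list
-/

set_option autoImplicit false

namespace Pool.Agent.Q149.HM

open Pool.Agent.Q264.HM

theorem all_eq_rec {β : Type} (p : β → Bool) (l : List β) :
    l.all p = Nat.rec (motive := fun _ => Bool) true
      (fun i ih => ih && (Option.casesOn (motive := fun _ => Bool) (l[i]?) true (fun b => p b)))
      l.length := by
  induction l using List.reverseRecOn with
  | nil => rfl
  | append_singleton l b ih =>
    have h1 : ∀ n ≤ l.length, Nat.rec (motive := fun _ => Bool) true
        (fun i ih => ih && (Option.casesOn (motive := fun _ => Bool) ((l ++ [b])[i]?) true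
          (fun b => p b))) n = Nat.rec (motive := fun _ => Bool) true
        (fun i ih => ih && (Option.casesOn (motive := fun _ => Bool) (l[i]?) true
          (fun b => p b))) n := by
      intro n
      induction n with
      | zero => intro _; rfl
      | succ n ihn =>
        intro hn
        have h2 := ihn (by omega)
        have h3 : (l ++ [b])[n]? = l[n]? := List.getElem?_append_left (by omega)
        simp only [h3]
        rw [h2]
    rw [List.all_append, ih]
    have h4 : (l ++ [b]).length = l.length + 1 := by simp
    rw [h4]
    have h5 : (l ++ [b])[l.length]? = some b := by simp
    simp only [h5]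
    rw [h1 l.length le_rfl]
    simp

theorem t_ALL : S_ALL := by
  intro α β _ _ f t hf ht
  have h1 : Computable fun a : α => Nat.rec (motive := fun _ => Bool) true
      (fun i ih => ih && (Option.casesOn (motive := fun _ => Bool) ((f a)[i]?) true
        (fun b => t a b))) (f a).length := by
    have hlen : Computable fun a : α => (f a).length := Computable.list_length.comp hf
    have hget : Computable fun q : α × (ℕ × Bool) => (f q.1)[q.2.1]? :=
      Computable.list_getElem?.comp (hf.comp Computable.fst)
        (Computable.fst.comp Computable.snd)
    have hcase : Computable fun q : α × (ℕ × Bool) =>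
        (Option.casesOn (motive := fun _ => Bool) ((f q.1)[q.2.1]?) true
          (fun b => t q.1 b) : Bool) :=
      Computable.option_casesOn hget (Computable.const true)
        (ht.comp (Computable.fst.comp Computable.fst) Computable.snd).to₂
    have hstep : Computable₂ fun (a : α) (y : ℕ × Bool) =>
        (y.2 && (Option.casesOn (motive := fun _ => Bool) ((f a)[y.1]?) true
          (fun b => t a b))) :=
      (Primrec.and.to_comp.comp (Computable.snd.comp Computable.snd) hcase).to₂
    exact Computable.nat_rec hlen (Computable.const true) hstep
  refine h1.of_eq fun a => ?_
  exact (all_eq_rec (t a) (f a)).symm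

end Pool.Agent.Q149.HM
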